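import Pool.Agent.R3D.ALL

/-!
# MP_33e5ad_gt: bodies of revolution homothetic to `Π_j K` or `Π_j^2 K`, all dimensions `d ≥ 3`

`d = n + 1`. Definitions (all in `Pool/Agent/RB75/GDefs.lean`):
`E k` is `EuclideanSpace ℝ (Fin k)`, `kap k` the volume of its unit ball, `supp K` the support
function. `IsIntrVol k j C v` : `v` is the `j`-th intrinsic volume of `C ⊆ E k`, by Steiner's formula.
`shadow ι u K` is the orthogonal projection of `K` to `u^⊥`, in the orthonormal coordinates `ι` of `u^⊥`.
`IsProjBody j K L` : `L` is the `j`-th projection body of `K`.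
`IsRevBody K` : `K` is a convex body of revolution.
-/

set_option autoImplicit false

namespace Pool.Agent.Results.MP_33e5ad_gt.BodiesOfRevolution

open Pool.Agent.RB75

/-- Let `K` be a convex body of revolution in `ℝ^d`, `d = n + 1 ≥ 3`, and `2 ≤ j ≤ d - 1`.
`K` is homothetic to `Π_j^2 K` iff it is a ball, or `j = d - 1` and it is an ellipsoid of revolution or
a right circular cylinder. `K` is homothetic to `Π_j K` iff it is a ball, or `j = d - 1` and it is a
right circular cylinder of radius `r` and height `2 s` with `κ_(d-1) r^2 = 2 κ_(d-2) s^2`. -/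
theorem result (n : ℕ) (hn : 2 ≤ n) (j : ℕ) (hj : 2 ≤ j) (hjn : j ≤ n) (K : Set (E (n + 1)))
    (hK : IsRevBody K) :
    ((∃ L M, IsProjBody j K L ∧ IsProjBody j L M ∧ Homothetic K M) ↔
      (IsBall K ∨ (j = n ∧ (IsEllRev K ∨ ∃ r s, IsCyl K r s)))) ∧
    ((∃ L, IsProjBody j K L ∧ Homothetic K L) ↔
      (IsBall K ∨ (j = n ∧ ∃ r s, kap n * r ^ 2 = 2 * kap (n - 1) * s ^ 2 ∧ IsCyl K r s))) :=
  Pool.Agent.R3D.main_result_all n hn j hj hjn K hK

end Pool.Agent.Results.MP_33e5ad_gt.BodiesOfRevolution
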