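import Mathlib
import Pool.Agent.PBL.S10

set_option autoImplicit false

open MeasureTheory Metric Set
open Pool.Agent.Helper82.Proj1 (Homothetic)
open Pool.Agent.HP89 (IsPB)

/-- Let `1 ≤ j < d`, `10^41 d^19 ≤ (d - j)^20` (this holds for all `j ≤ d - 113 d^(19/20)`, that is, for asymptotically all
indices `j` as `d → ∞`) and `m ∈ {1, 2}`. A convex body `K` of `ℝ^d` with nonempty interior is homothetic to its (`m = 1`)
`j`-th projection body `Π_j K`, respectively (`m = 2`) to its second iterated `j`-th projection body `Π_j (Π_j K)`, if and only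
if `K` is a Euclidean ball. -/
theorem Pool.Agent.Results.MP_33e5ad_gt.NearlyAllIndices.result
    (j d m : ℕ) (hj : 1 ≤ j) (hjd : j < d) (h : 10 ^ 41 * d ^ 19 ≤ (d - j) ^ 20) (hm : 1 ≤ m) (hm2 : m ≤ 2)
    (K : ConvexBody (EuclideanSpace ℝ (Fin d)))
    (hK : (interior (K : Set (EuclideanSpace ℝ (Fin d)))).Nonempty) :
    (∃ C : ℕ → ConvexBody (EuclideanSpace ℝ (Fin d)), C 0 = K ∧
      (∀ i < m, IsPB j (C i : Set (EuclideanSpace ℝ (Fin d))) (C (i + 1) : Set (EuclideanSpace ℝ (Fin d)))) ∧
      Homothetic (C m) K) ↔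
    ∃ (y : EuclideanSpace ℝ (Fin d)) (r : ℝ), 0 < r ∧
      (K : Set (EuclideanSpace ℝ (Fin d))) = closedBall y r := by
  have hfr : Module.finrank ℝ (EuclideanSpace ℝ (Fin d)) = d := by simp
  have hCC : ∀ L : ConvexBody (EuclideanSpace ℝ (Fin d)), Pool.Agent.HP89.CC (L : Set (EuclideanSpace ℝ (Fin d))) :=
    fun L => ⟨L.isCompact, L.convex, L.nonempty⟩
  constructor
  · rintro ⟨C, h0, hC, c, hc, x, hx⟩
    subst h0
    exact Pool.Agent.PBL.ball_two hj (by rw [hfr]; exact hjd) hm hm2 (by rw [hfr]; exact h)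
      (fun i => (C i : Set _)) (fun i => hCC (C i)) hK hC hc hx
  · rintro ⟨y, r, hr, hKr⟩
    obtain ⟨ρ, hρ, h0, h1⟩ := Pool.Agent.HP89.chain_of_ball (V := EuclideanSpace ℝ (Fin d)) (j := j)
      (by rw [hfr]; exact hjd) y hr
    let B : ℕ → ConvexBody (EuclideanSpace ℝ (Fin d)) := fun i =>
      ⟨closedBall (if i = 0 then y else 0) (ρ i), convex_closedBall _ _, isCompact_closedBall _ _,
        nonempty_closedBall.2 (hρ i).le⟩
    have hB : ∀ i, (B i : Set (EuclideanSpace ℝ (Fin d))) = closedBall (if i = 0 then y else 0) (ρ i) := fun i => rfl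
    refine ⟨B, ?_, ?_, ρ m / r, div_pos (hρ m) hr, -((ρ m / r) • y), ?_⟩
    · apply ConvexBody.ext
      rw [hB 0, hKr, h0]
      simp
    · intro i _
      have := h1 i
      rw [hB i, hB (i + 1)]
      simpa using this
    · have hm0 : m ≠ 0 := by omega
      rw [hB m, hKr]
      simp only [hm0, if_false]
      ext z
      constructor
      · intro hz
        rw [mem_closedBall, dist_zero_right] at hz
        have h2 := hρ m
        refine ⟨y + (r / ρ m) • z, ?_, ?_⟩
        · rw [mem_closedBall, dist_eq_norm, add_sub_cancel_left, norm_smul, Real.norm_of_nonneg (by positivity)]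
          calc r / ρ m * ‖z‖ ≤ r / ρ m * ρ m := mul_le_mul_of_nonneg_left hz (by positivity)
            _ = r := by field_simp
        · show (ρ m / r) • (y + (r / ρ m) • z) + -((ρ m / r) • y) = z
          rw [smul_add, smul_smul]
          have h3 : ρ m / r * (r / ρ m) = 1 := by field_simp
          rw [h3, one_smul]
          abel
      · rintro ⟨w, hw, rfl⟩
        rw [mem_closedBall, dist_eq_norm] at hw
        have h2 := hρ m
        rw [mem_closedBall, dist_zero_right]
        have h3 : (ρ m / r) • w + -((ρ m / r) • y) = (ρ m / r) • (w - y) := by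
          rw [smul_sub]
          abel
        show ‖(ρ m / r) • w + -((ρ m / r) • y)‖ ≤ ρ m
        rw [h3, norm_smul, Real.norm_of_nonneg (by positivity)]
        calc ρ m / r * ‖w - y‖ ≤ ρ m / r * r := mul_le_mul_of_nonneg_left hw (by positivity)
          _ = ρ m := by field_simp
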