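import Pool.Agent.NSB.FDefs

/-!
# MP_33e5ad_gt: non-smooth bodies homothetic to `Π_j² K`, all dimensions

Definitions (`Pool/Agent/NSB/FDefs.lean`, `Pool/Agent/NSB/Defs.lean`, `Pool/Agent/NSB/ALL.lean`, `Pool/Agent/HP89/G9Defs.lean`):
* `Body d` is the type of nonempty compact convex subsets of `ℝ^d`, `HasInt K`: `K` has interior points;
* `IsPi j K L`: `L` is the `j`-th projection body of `K`: for all unit vectors `u` the value of the support function of `L` at `u` is
  the coefficient `v_j` in Steiner's formula for the orthogonal projection of `K` to `u^⊥`;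
* `Sol2 j K L`: `L = Π_j K` and `K` is homothetic to `Π_j L`;
* `Smooth K`: every point of `K` has at most one unit outer normal vector;
* `DirectSum K`: `K = x + K₁ + K₂` with `K_i ⊆ W_i` compact convex with interior points in `W_i`, homothetic to `Π² K_i`
  (`Π` the classical projection body in `W_i`), `W₁ ⊕ W₂ = ℝ^d` (not necessarily orthogonal), `W_i ≠ 0`.
-/

set_option autoImplicit false

namespace Pool.Agent.Results.MP_33e5ad_gt.NonsmoothBodies

open Pool.Agent.NSB

/-- Let `d ≥ 3`, `1 ≤ j ≤ d - 1` and `K` a convex body in `ℝ^d` with interior points. `K` is homothetic to `Π_j² K` and `K` or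
`Π_j K` is not smooth, if and only if `j = d - 1` and `K` is a direct sum of two bodies with this homothety property in
complementary subspaces. -/
theorem result (d j : ℕ) (hd : 3 ≤ d) (hj : 1 ≤ j) (hjd : j < d) (K : Body d) (hK : HasInt K) :
    (∃ L, Sol2 j K L ∧ ¬ (Smooth K ∧ Smooth L)) ↔ (j = d - 1 ∧ DirectSum K) :=
  finalA d j hd hj hjd K hK

end Pool.Agent.Results.MP_33e5ad_gt.NonsmoothBodies
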